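import Pool.Agent.H951R3.PH.C2

/-!
# Interpolation determinants of points on orbits of Henon maps, with one centre for every place

The local estimate of `Pool.Agent.H951R3.PH.C2` with the coordinates measured from an arbitrary
centre (which may depend on the place).
-/

set_option autoImplicit false

namespace Pool.Agent.TH873.HI

open Real NumberField Polynomial Pool.Agent.H951R3 Pool.Agent.H951R3.PH

universe u

/-- leading terms of positive degree do not change if a constant is subtracted -/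
theorem lt_shift {K : Type u} [Field K] {A : Type*} [CommRing A] [Algebra K A] {x y f : A} {c : K}
    {a b : ℕ} (hab : 1 ≤ a + b) (h : LT K x y f c a b) (s : K) :
    LT K x y (f - algebraMap K A s) c a b := by
  unfold Pool.Agent.H951R3.PH.LT at *
  have h1 : f - algebraMap K A s - c • (x ^ a * y ^ b) =
      (f - c • (x ^ a * y ^ b)) + (-s) • (x ^ 0 * y ^ 0) := by
    rw [Algebra.smul_def (-s), map_neg, pow_zero, pow_zero]
    ring
  rw [h1]
  exact Submodule.add_mem _ h (Submodule.smul_mem _ _ (a1_mon (by omega)))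

theorem basis' {K : Type u} [Field K] {N : ℕ} {F : K[X]} {d : ℕ} (hd : 2 ≤ d)
    (hF : F.natDegree = d) {δ : K} (hδ : δ ≠ 0) {x : ℤ → Fin N → K} (hx : Orb F δ x) (a b : ℕ) :
    ∃ (E E' s s' : ℕ), (d - 1) * E + s = a ∧ (d - 1) * E' + s' = b ∧
      s ≤ (d - 1) * (Nat.log d a + 1) ∧ s' ≤ (d - 1) * (Nat.log d b + 1) ∧
      ∀ c : K, ∃ p : Fin N → K,
        LT K (x 0) (x 1) p ((F.coeff d / δ) ^ E * F.coeff d ^ E') a b ∧
        ∀ (v : AbsoluteValue K ℝ) (M : ℝ), (∀ n i, v (x n i - c) ≤ M) →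
          ∀ i, v (p i) ≤ M ^ (s + s') := by
  obtain ⟨ks, h1, h2, h3⟩ := digits hd a
  obtain ⟨ls, g1, g2, g3⟩ := digits hd b
  refine ⟨(ks.map (ex d)).sum, (ls.map (ex d)).sum, ks.card, ls.card, h3, g3, h2, g2, ?_⟩
  intro c
  have hpos : ∀ k, 1 ≤ d ^ k := fun k => Nat.one_le_pow _ _ (by omega)
  refine ⟨(ks.map fun k : ℕ => x (-k) - algebraMap K (Fin N → K) c).prod *
    (ls.map fun k : ℕ => x (1 + k) - algebraMap K (Fin N → K) c).prod, ?_, ?_⟩
  · have q1 := a4_lt (x 0) (x 1) (fun k : ℕ => x (-k) - algebraMap K (Fin N → K) c)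
      (F.coeff d / δ) (ex d) (fun k => d ^ k)
      (fun _ => 0) (fun k => lt_shift (by have := hpos k; omega) (lt_bwd hd hF hδ hx k) c) ks
    have q2 := a4_lt (x 0) (x 1) (fun k : ℕ => x (1 + k) - algebraMap K (Fin N → K) c)
      (F.coeff d) (ex d) (fun _ => 0)
      (fun k => d ^ k) (fun k => lt_shift (by have := hpos k; omega) (lt_fwd hd hF hx k) c) ls
    have q3 := lt_mul q1 q2
    rw [h1, g1, Multiset.map_const', Multiset.map_const', Multiset.sum_replicate,
      Multiset.sum_replicate, smul_zero, smul_zero, add_zero, zero_add] at q3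
    exact q3
  · intro v M hM i
    rw [Pi.mul_apply, map_mul, pow_add]
    have hM0 : 0 ≤ M := (v.nonneg _).trans (hM 0 i)
    refine mul_le_mul (a4_val _ v M (fun n i => ?_) i ks) (a4_val _ v M (fun n i => ?_) i ls)
      (v.nonneg _) (pow_nonneg hM0 _)
    · simpa using hM (-(n : ℤ)) i
    · simpa using hM (1 + (n : ℤ)) i

open C2 in
theorem package' {K : Type u} [Field K] {N : ℕ} {F : K[X]} {d : ℕ} (hd : 2 ≤ d)
    (hF : F.natDegree = d) {δ : K} (hδ : δ ≠ 0) {x : ℤ → Fin N → K} (hx : Orb F δ x)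
    (hinj : ∀ i j, x 0 i = x 0 j → x 1 i = x 1 j → i = j) :
    ∃ (Δ : K) (Λ σ E : ℕ), Δ ≠ 0 ∧ (4 ≤ N → (N : ℝ) * √N ≤ 8 * Λ) ∧
      (σ : ℝ) ≤ 2 * N * ((d : ℝ) - 1) * (Nat.log d N + 1) ∧ (d - 1) * E ≤ Λ ∧
      (∀ (v : AbsoluteValue K ℝ) (κ S : ℝ) (c : K), DetBd v N κ → 1 ≤ S →
        (∀ n i, v (x n i - c) * al v d F ≤ S) →
        log (v Δ) ≤ log κ + σ * log S - Λ / ((d : ℝ) - 1) * log (v (F.coeff d)) +
          E * log (v δ)) ∧
      (∀ (v : AbsoluteValue K ℝ) (κ ρ : ℝ), DetBd v N κ → 0 < ρ →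
        (∀ i j, v (x 0 i - x 0 j) * al v d F ≤ ρ) → (∀ i j, v (x 1 i - x 1 j) * al v d F ≤ ρ) →
        log (v Δ) ≤ log κ + Λ * (log ρ - log (v (F.coeff d)) / ((d : ℝ) - 1))) := by
  obtain ⟨e, he, hlt, hdet, hid⟩ := interp (x 0) (x 1) hinj
  have hb := fun i : Fin N => basis' hd hF hδ hx (e i).1 (e i).2
  choose E1 E2 s1 s2 h1 h2 h3 h4 h5' using hb
  have hd1 : ((d - 1 : ℕ) : ℝ) = (d : ℝ) - 1 := by
    rw [Nat.cast_sub (by omega)]
    simp
  have hd2 : (0 : ℝ) < (d : ℝ) - 1 := by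
    have : (2 : ℝ) ≤ d := by exact_mod_cast hd
    linarith
  set Δ : K := (Matrix.of fun i j => x 0 j ^ (e i).1 * x 1 j ^ (e i).2).det with hΔ
  set Λ : ℕ := ∑ i, ((e i).1 + (e i).2) with hΛ
  refine ⟨Δ, Λ, ∑ i, (s1 i + s2 i), ∑ i, E1 i, hdet, fun h4 => comb h4 e he, ?_, ?_, ?_, ?_⟩
  · have hs : ∀ i, ((s1 i + s2 i : ℕ) : ℝ) ≤ 2 * ((d : ℝ) - 1) * (Nat.log d N + 1) := by
      intro i
      have ha : Nat.log d (e i).1 ≤ Nat.log d N := Nat.log_mono_right (by have := hlt i; omega)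
      have hb : Nat.log d (e i).2 ≤ Nat.log d N := Nat.log_mono_right (by have := hlt i; omega)
      have h7 : s1 i + s2 i ≤ 2 * ((d - 1) * (Nat.log d N + 1)) := by
        have h8 : (d - 1) * (Nat.log d (e i).1 + 1) ≤ (d - 1) * (Nat.log d N + 1) :=
          Nat.mul_le_mul_left _ (by omega)
        have h9 : (d - 1) * (Nat.log d (e i).2 + 1) ≤ (d - 1) * (Nat.log d N + 1) :=
          Nat.mul_le_mul_left _ (by omega)
        have := h3 i
        have := h4 i
        omega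
      have h10 : ((s1 i + s2 i : ℕ) : ℝ) ≤ ((2 * ((d - 1) * (Nat.log d N + 1)) : ℕ) : ℝ) := by
        exact_mod_cast h7
      rw [Nat.cast_mul, Nat.cast_mul, hd1] at h10
      push_cast at h10 ⊢
      linarith
    rw [Nat.cast_sum]
    calc ∑ i, ((s1 i + s2 i : ℕ) : ℝ) ≤ ∑ _i : Fin N, 2 * ((d : ℝ) - 1) * (Nat.log d N + 1) :=
          Finset.sum_le_sum fun i _ => hs i
      _ = 2 * N * ((d : ℝ) - 1) * (Nat.log d N + 1) := by
          rw [Finset.sum_const, Finset.card_univ, Fintype.card_fin, nsmul_eq_mul]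
          ring
  · rw [Finset.mul_sum, hΛ]
    apply Finset.sum_le_sum
    intro i _
    have := h1 i
    omega
  · intro v κ S c hκ hS hxS
    have h5'' := fun i : Fin N => h5' i c
    choose p h5 h6 using h5''
    have hF0 := coeff_pos v hd hF
    have hal := al_pos v hd hF
    have hδ0 : 0 < v δ := v.pos hδ
    have hM : ∀ n i, v (x n i - c) ≤ S / al v d F := fun n i => (le_div_iff₀ hal).2 (hxS n i)
    have hS0 : 0 < S / al v d F := by positivity
    have hΔ0 : 0 < v Δ := v.pos hdet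
    have hκ0 : 0 < κ := lt_of_lt_of_le one_pos hκ.1
    have hb1 := hκ.2 p (fun i => (S / al v d F) ^ (s1 i + s2 i)) fun i j => h6 i v _ hM j
    rw [hid (fun i => (F.coeff d / δ) ^ E1 i * F.coeff d ^ E2 i) p h5,
      Finset.prod_pow_eq_pow_sum, map_mul, map_prod] at hb1
    have hc0 : ∀ i, 0 < v ((F.coeff d / δ) ^ E1 i * F.coeff d ^ E2 i) := by
      intro i
      rw [map_mul, map_pow, map_pow, map_div₀]
      positivity
    have hlc : ∀ i, log (v ((F.coeff d / δ) ^ E1 i * F.coeff d ^ E2 i)) =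
        ((E1 i : ℝ) + E2 i) * log (v (F.coeff d)) - E1 i * log (v δ) := by
      intro i
      rw [map_mul, map_pow, map_pow, map_div₀, Real.log_mul (by positivity) (by positivity),
        Real.log_pow, Real.log_pow, Real.log_div hF0.ne' hδ0.ne']
      ring
    have hb2 := Real.log_le_log (mul_pos (Finset.prod_pos fun i _ => hc0 i) hΔ0) hb1
    rw [Real.log_mul (Finset.prod_pos fun i _ => hc0 i).ne' hΔ0.ne',
      Real.log_prod (fun i _ => (hc0 i).ne'), Real.log_mul hκ0.ne' (by positivity),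
      Real.log_pow, Real.log_div (by positivity) hal.ne', log_al v hd hF] at hb2
    simp_rw [hlc] at hb2
    rw [Finset.sum_sub_distrib, ← Finset.sum_mul, ← Finset.sum_mul] at hb2
    have hsum : ((d : ℝ) - 1) * (∑ i, ((E1 i : ℝ) + E2 i)) + ((∑ i, (s1 i + s2 i) : ℕ) : ℝ) =
        (Λ : ℝ) := by
      rw [hΛ]
      push_cast
      rw [Finset.mul_sum, ← Finset.sum_add_distrib]
      apply Finset.sum_congr rfl
      intro i _
      have h7 : (((d - 1) * E1 i + s1 i : ℕ) : ℝ) = ((e i).1 : ℝ) := by exact_mod_cast h1 i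
      have h8 : (((d - 1) * E2 i + s2 i : ℕ) : ℝ) = ((e i).2 : ℝ) := by exact_mod_cast h2 i
      push_cast [hd1] at h7 h8
      linarith
    have hE : ((∑ i, E1 i : ℕ) : ℝ) = ∑ i, (E1 i : ℝ) := by push_cast; rfl
    rw [hE]
    have hdiv : (Λ : ℝ) / ((d : ℝ) - 1) = (∑ i, ((E1 i : ℝ) + E2 i)) +
        ((∑ i, (s1 i + s2 i) : ℕ) : ℝ) / ((d : ℝ) - 1) := by
      rw [← hsum]
      field_simp
    rw [hdiv]
    have h9 : ((∑ i, (s1 i + s2 i) : ℕ) : ℝ) * (log (v (F.coeff d)) / ((d : ℝ) - 1)) =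
        ((∑ i, (s1 i + s2 i) : ℕ) : ℝ) / ((d : ℝ) - 1) * log (v (F.coeff d)) := by ring
    rw [mul_sub, h9] at hb2
    rw [add_mul]
    linarith
  · intro v κ ρ hκ hρ h0 h1'
    have hκ0 : 0 < κ := lt_of_lt_of_le one_pos hκ.1
    have hF0 := coeff_pos v hd hF
    have hal := al_pos v hd hF
    have hΔ0 : 0 < v Δ := v.pos hdet
    rcases Nat.eq_zero_or_pos N with hN | hN
    · subst hN
      have hΔ1 : Δ = 1 := by
        rw [hΔ]
        exact Matrix.det_isEmpty
      have hΛ0 : Λ = 0 := by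
        rw [hΛ]
        simp
      rw [hΔ1, hΛ0]
      simp only [map_one, Real.log_one, Nat.cast_zero, zero_mul, add_zero]
      exact Real.log_nonneg hκ.1
    · set i0 : Fin N := ⟨0, hN⟩
      have hq := hid (fun _ => 1) (fun i => (x 0 - algebraMap K (Fin N → K) (x 0 i0)) ^ (e i).1 *
        (x 1 - algebraMap K (Fin N → K) (x 1 i0)) ^ (e i).2)
        (fun i => lt_trans' (x 0) (x 1) (x 0 i0) (x 1 i0) (e i).1 (e i).2)
      simp only [Finset.prod_const_one, one_mul] at hq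
      have hb1 := hκ.2 (fun i => (x 0 - algebraMap K (Fin N → K) (x 0 i0)) ^ (e i).1 *
        (x 1 - algebraMap K (Fin N → K) (x 1 i0)) ^ (e i).2)
        (fun i => (ρ / al v d F) ^ ((e i).1 + (e i).2)) (by
          intro i j
          have ha : v (x 0 j - x 0 i0) ≤ ρ / al v d F := (le_div_iff₀ hal).2 (h0 j i0)
          have hb : v (x 1 j - x 1 i0) ≤ ρ / al v d F := (le_div_iff₀ hal).2 (h1' j i0)
          have : ((x 0 - algebraMap K (Fin N → K) (x 0 i0)) ^ (e i).1 *
            (x 1 - algebraMap K (Fin N → K) (x 1 i0)) ^ (e i).2) j =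
            (x 0 j - x 0 i0) ^ (e i).1 * (x 1 j - x 1 i0) ^ (e i).2 := by
            simp [Pi.mul_apply, Pi.pow_apply, Pi.sub_apply, Pi.algebraMap_apply]
          rw [this, map_mul, map_pow, map_pow, pow_add]
          exact mul_le_mul (pow_le_pow_left₀ (v.nonneg _) ha _)
            (pow_le_pow_left₀ (v.nonneg _) hb _) (pow_nonneg (v.nonneg _) _) (by positivity))
      rw [hq, Finset.prod_pow_eq_pow_sum, ← hΛ] at hb1
      have hb2 := Real.log_le_log (v.pos hdet) hb1
      rw [Real.log_mul hκ0.ne' (by positivity), Real.log_pow,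
        Real.log_div hρ.ne' hal.ne', log_al v hd hF] at hb2
      exact hb2


end Pool.Agent.TH873.HI
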