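import Pool.Agent.TH873.HI.A
import Pool.Agent.H951R3.PH.D3
import Pool.Agent.H951R3.PH.Step

/-!
# The global inequality with one centre for every place
-/

set_option autoImplicit false

namespace Pool.Agent.TH873.HI

open Real NumberField Polynomial Pool.Agent.H951R3 Pool.Agent.H951R3.PH

universe u

section places

variable {K : Type u} [Field K] [NumberField K]

theorem core' {d : ℕ} (hd : 2 ≤ d) {F : K[X]} (hF : F.natDegree = d) {δ : K} (hδ : δ ≠ 0)
    {N : ℕ} {x : ℤ → Fin N → K} (hx : Orb F δ x)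
    (hinj : ∀ i j, x 0 i = x 0 j → x 1 i = x 1 j → i = j)
    (S : Pl K → ℝ) (hS1 : ∀ p, 1 ≤ S p) (P : Finset (Pl K)) (hSP : ∀ p, p ∉ P → S p = 1)
    (c : Pl K → K) (hS : ∀ p n i, pv p (x n i - c p) * al (pv p) d F ≤ S p)
    (q : Pl K) {ρ : ℝ} (hρ : 0 < ρ)
    (h0 : ∀ i j, pv q (x 0 i - x 0 j) * al (pv q) d F ≤ ρ)
    (h1 : ∀ i j, pv q (x 1 i - x 1 j) * al (pv q) d F ≤ ρ) :
    ∃ Λ : ℕ, (4 ≤ N → (N : ℝ) * √N ≤ 8 * Λ) ∧
      Λ * (pm q * (-log ρ - log (max 1 (pv q δ)⁻¹) / ((d : ℝ) - 1))) ≤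
        Module.finrank ℚ K * log N.factorial +
          2 * N * ((d : ℝ) - 1) * (Nat.log d N + 1) * ∑ p ∈ P, pm p * log (S p) := by
  classical
  obtain ⟨Δ, Λ, σ, E, hΔ, hN, hσ, hE, hloss, hgain⟩ := package' hd hF hδ hx hinj
  have hd1 : (0 : ℝ) < (d : ℝ) - 1 := by
    have : (2 : ℝ) ≤ d := by exact_mod_cast hd
    linarith
  have ha : F.coeff d ≠ 0 := by
    rw [← hF]
    have hF0 : F ≠ 0 := by
      rintro rfl
      rw [natDegree_zero] at hF
      omega
    exact leadingCoeff_ne_zero.mpr hF0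
  obtain ⟨P', hPP, hqP, hinf, hP'⟩ := D3_places hΔ ha hδ P q
  have sΔ := prod_formula hΔ P' hinf fun p hp => (hP' p hp).1
  have sa := prod_formula ha P' hinf fun p hp => (hP' p hp).2.1
  have sδ := prod_formula hδ P' hinf fun p hp => (hP' p hp).2.2
  refine ⟨Λ, hN, ?_⟩
  -- the local inequalities
  have hq := hgain (pv q) (pk N q) ρ (detBd_pk N q) hρ h0 h1
  have hp : ∀ p ∈ P'.erase q, pm p * log (pv p Δ) ≤ pm p * log (pk N p) +
      σ * (pm p * log (S p)) - Λ / ((d : ℝ) - 1) * (pm p * log (pv p (F.coeff d))) +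
        E * (pm p * log (pv p δ)) := by
    intro p _
    have := mul_le_mul_of_nonneg_left
      (hloss (pv p) (pk N p) (S p) (c p) (detBd_pk N p) (hS1 p) (hS p)) (D3_pm_pos p).le
    linarith
  have hqm := mul_le_mul_of_nonneg_left hq (D3_pm_pos q).le
  have hsum := Finset.sum_le_sum hp
  rw [Finset.sum_add_distrib, Finset.sum_sub_distrib, Finset.sum_add_distrib, ← Finset.mul_sum,
    ← Finset.mul_sum, ← Finset.mul_sum] at hsum
  have eΔ := Finset.add_sum_erase P' (fun p => pm p * log (pv p Δ)) hqP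
  have ea := Finset.add_sum_erase P' (fun p => pm p * log (pv p (F.coeff d))) hqP
  have eδ := Finset.add_sum_erase P' (fun p => pm p * log (pv p δ)) hqP
  have ek := Finset.add_sum_erase P' (fun p => pm p * log (pk N p)) hqP
  rw [sΔ] at eΔ
  rw [sa] at ea
  rw [sδ] at eδ
  have hk := sum_pk (K := K) N P'
  -- the sums with `S`
  have hSP' : ∑ p ∈ P'.erase q, pm p * log (S p) ≤ ∑ p ∈ P, pm p * log (S p) := by
    have h2 : ∑ p ∈ P'.erase q, pm p * log (S p) ≤ ∑ p ∈ P', pm p * log (S p) :=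
      Finset.sum_le_sum_of_subset_of_nonneg (Finset.erase_subset _ _) fun p _ _ =>
        mul_nonneg (D3_pm_pos p).le (log_nonneg (hS1 p))
    have h3 : ∑ p ∈ P, pm p * log (S p) = ∑ p ∈ P', pm p * log (S p) :=
      Finset.sum_subset hPP fun p _ hp => by rw [hSP p hp, log_one, mul_zero]
    rw [h3]
    exact h2
  have hSnn : 0 ≤ ∑ p ∈ P, pm p * log (S p) :=
    Finset.sum_nonneg fun p _ => mul_nonneg (D3_pm_pos p).le (log_nonneg (hS1 p))
  have hσS : (σ : ℝ) * ∑ p ∈ P'.erase q, pm p * log (S p) ≤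
      2 * N * ((d : ℝ) - 1) * (Nat.log d N + 1) * ∑ p ∈ P, pm p * log (S p) :=
    (mul_le_mul_of_nonneg_left hSP' (Nat.cast_nonneg σ)).trans
      (mul_le_mul_of_nonneg_right hσ hSnn)
  -- the term with `δ`
  have hδq : 0 < pv q δ := (pv q).pos hδ
  have hb0 : 0 ≤ log (max 1 (pv q δ)⁻¹) := log_nonneg (le_max_left _ _)
  have hb : -log (pv q δ) ≤ log (max 1 (pv q δ)⁻¹) := by
    rw [← log_inv]
    exact log_le_log (inv_pos.mpr hδq) (le_max_right _ _)
  have hE' : (E : ℝ) ≤ Λ / ((d : ℝ) - 1) := by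
    rw [le_div_iff₀ hd1]
    have h2 : (((d - 1 : ℕ) : ℝ)) * E ≤ Λ := by exact_mod_cast hE
    rw [Nat.cast_sub (by omega), Nat.cast_one] at h2
    linarith
  have hδterm : (E : ℝ) * (-(pm q * log (pv q δ))) ≤
      Λ / ((d : ℝ) - 1) * (pm q * log (max 1 (pv q δ)⁻¹)) := by
    have h2 : -(pm q * log (pv q δ)) ≤ pm q * log (max 1 (pv q δ)⁻¹) := by
      have := mul_le_mul_of_nonneg_left hb (D3_pm_pos q).le
      linarith
    calc (E : ℝ) * (-(pm q * log (pv q δ))) ≤ E * (pm q * log (max 1 (pv q δ)⁻¹)) :=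
          mul_le_mul_of_nonneg_left h2 (Nat.cast_nonneg E)
      _ ≤ Λ / ((d : ℝ) - 1) * (pm q * log (max 1 (pv q δ)⁻¹)) :=
          mul_le_mul_of_nonneg_right hE' (mul_nonneg (D3_pm_pos q).le hb0)
  have eδ' : ∑ p ∈ P'.erase q, pm p * log (pv p δ) = -(pm q * log (pv q δ)) := by linarith
  have ea' : ∑ p ∈ P'.erase q, pm p * log (pv p (F.coeff d)) =
      -(pm q * log (pv q (F.coeff d))) := by linarith
  have ek' : ∑ p ∈ P'.erase q, pm p * log (pk N p) =
      ∑ p ∈ P', pm p * log (pk N p) - pm q * log (pk N q) := by linarith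
  have eΔ' : ∑ p ∈ P'.erase q, pm p * log (pv p Δ) = -(pm q * log (pv q Δ)) := by linarith
  rw [eδ', ea', ek', eΔ'] at hsum
  have hfin : (Λ : ℝ) * (pm q * (-log ρ - log (max 1 (pv q δ)⁻¹) / ((d : ℝ) - 1))) =
      -(pm q * (Λ * log ρ)) - Λ / ((d : ℝ) - 1) * (pm q * log (max 1 (pv q δ)⁻¹)) := by
    field_simp
  rw [hfin]
  have hqm' : pm q * log (pv q Δ) ≤ pm q * log (pk N q) + pm q * (Λ * log ρ) -
      Λ / ((d : ℝ) - 1) * (pm q * log (pv q (F.coeff d))) := by
    have e : pm q * (log (pk N q) + Λ * (log ρ - log (pv q (F.coeff d)) / ((d : ℝ) - 1))) =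
        pm q * log (pk N q) + pm q * (Λ * log ρ) -
          Λ / ((d : ℝ) - 1) * (pm q * log (pv q (F.coeff d))) := by
      field_simp
      ring
    rw [← e]
    exact hqm
  linarith

end places

theorem step' {d : ℕ} (hd : 2 ≤ d) (D : ℕ) {c₀ L₀ : ℝ} (hc₀ : 0 < c₀) (hL₀ : 0 ≤ L₀) (M : ℕ) :
    ∃ C : ℝ, 0 < C ∧ ∀ (K : Type u) [Field K] [NumberField K], Module.finrank ℚ K ≤ D →
    ∀ {G : K[X]}, G.natDegree = d → ∀ {δ : K}, δ ≠ 0 →
    ∀ {ι : Type u} [Fintype ι] (X : ι → ℤ → K), (∀ i, Orb G δ (X i)) →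
      (∀ i j, X i 0 = X j 0 → X i 1 = X j 1 → i = j) →
    ∀ (S : Pl K → ℝ), (∀ p, 1 ≤ S p) → ∀ (P : Finset (Pl K)), (∀ p, p ∉ P → S p = 1) →
    ∀ (c : Pl K → K), (∀ p i n, pv p (X i n - c p) * al (pv p) d G ≤ S p) →
    ∀ (q : Pl K) (ρ : ℝ), 0 < ρ → ∀ cell : ι → Fin M,
      (∀ i j, cell i = cell j → ∀ n : ℤ, n = 0 ∨ n = 1 →
        pv q (X i n - X j n) * al (pv q) d G ≤ ρ) →
    ∀ (τ R : ℝ), 0 ≤ τ → 1 ≤ R →
      c₀ * (1 + τ) ≤ pm q * (-log ρ - log (max 1 (pv q δ)⁻¹) / ((d : ℝ) - 1)) →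
      ∑ p ∈ P, pm p * log (S p) ≤ L₀ * R * (1 + τ) →
      (Fintype.card ι : ℝ) ≤ C * (R * log (1 + R)) ^ 2 := by
  classical
  set C₁ : ℝ := max 2 (8 / c₀ * (D + 4 * ((d : ℝ) - 1) * L₀ + 1)) with hC₁
  have hd1 : (1 : ℝ) ≤ (d : ℝ) - 1 := by
    have : (2 : ℝ) ≤ d := by exact_mod_cast hd
    linarith
  have hC₁pos : 0 < C₁ := lt_of_lt_of_le (by norm_num) (le_max_left _ _)
  obtain ⟨C', hC', hsolve⟩ := solve hC₁pos
  refine ⟨(M + 1) * C', by positivity, ?_⟩
  intro K _ _ hfin G hG δ hδ ι _ X hX hinj S hS1 P hSP c hS q ρ hρ cell hcell τ R hτ hR hγ hL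
  -- pigeonhole
  rcases isEmpty_or_nonempty ι with hι | hι
  · rw [Fintype.card_eq_zero]
    push_cast
    positivity
  obtain ⟨k, hk⟩ : ∃ k : Fin M, Fintype.card ι ≤ M * (Finset.univ.filter fun i => cell i = k).card := by
    by_contra hcon
    push Not at hcon
    have h1 : Fintype.card ι = ∑ k : Fin M, (Finset.univ.filter fun i => cell i = k).card := by
      rw [← Finset.card_univ]
      exact Finset.card_eq_sum_card_fiberwise (fun i _ => Finset.mem_univ (cell i))
    have hM : 0 < M := by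
      have := (cell hι.some).pos
      exact this
    have h2 : M * Fintype.card ι = ∑ k : Fin M, M * (Finset.univ.filter fun i => cell i = k).card := by
      rw [← Finset.mul_sum, ← h1]
    have h3 : ∑ k : Fin M, M * (Finset.univ.filter fun i => cell i = k).card <
        ∑ _k : Fin M, Fintype.card ι := by
      refine Finset.sum_lt_sum_of_nonempty ?_ (fun k _ => hcon k)
      exact ⟨⟨0, hM⟩, Finset.mem_univ _⟩
    rw [← h2, Finset.sum_const, Finset.card_univ, Fintype.card_fin, smul_eq_mul] at h3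
    exact lt_irrefl _ h3
  set Z := Finset.univ.filter fun i => cell i = k with hZ
  set N := Z.card with hN
  have hN1 : 1 ≤ N := by
    by_contra hcon
    have : N = 0 := by omega
    rw [this, mul_zero] at hk
    have := Fintype.card_pos (α := ι)
    omega
  let e : Fin N ≃ Z := (Finset.equivFin Z).symm
  have hcellk : ∀ i : Fin N, cell (e i).1 = k := fun i => (Finset.mem_filter.1 (e i).2).2
  let x : ℤ → Fin N → K := fun n i => X (e i).1 n
  have hx : Orb G δ x := by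
    intro n
    funext i
    have h1 := hX (e i).1 n
    change X (e i).1 (n + 1) + δ • X (e i).1 (n - 1) = _
    rw [h1]
    have h2 := Polynomial.map_aeval_eq_aeval_map (φ := RingHom.id K)
      (ψ := (Pi.evalRingHom (fun _ : Fin N => K) i)) (by ext; simp) G (x n)
    rw [Polynomial.map_id] at h2
    exact h2.symm
  have hinj' : ∀ i j, x 0 i = x 0 j → x 1 i = x 1 j → i = j := by
    intro i j h0 h1
    have := hinj _ _ h0 h1
    exact e.injective (Subtype.ext this)
  obtain ⟨Λ, hΛ, hcore⟩ := core' hd hG hδ hx hinj' S hS1 P hSP c (fun p n i => hS p _ n) q hρ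
    (fun i j => hcell _ _ ((hcellk i).trans (hcellk j).symm) 0 (Or.inl rfl))
    (fun i j => hcell _ _ ((hcellk i).trans (hcellk j).symm) 1 (Or.inr rfl))
  have hN1' : (1 : ℝ) ≤ N := by exact_mod_cast hN1
  have hlogN : 0 ≤ log (N : ℝ) := log_nonneg hN1'
  have hsqrt : √(N : ℝ) ≤ C₁ * R * (1 + log N) := by
    rcases lt_or_ge N 4 with h4 | h4
    · have h5 : √(N : ℝ) ≤ 2 := by
        rw [show (2 : ℝ) = √(4 : ℝ) by
          rw [show (4 : ℝ) = 2 ^ 2 by norm_num]
          rw [Real.sqrt_sq (by norm_num)]]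
        refine Real.sqrt_le_sqrt ?_
        have : (N : ℝ) ≤ 4 := by exact_mod_cast h4.le
        exact this
      have h6 : (2 : ℝ) ≤ C₁ := le_max_left _ _
      calc √(N : ℝ) ≤ 2 * 1 * (1 + 0) := by linarith
        _ ≤ C₁ * R * (1 + log N) := by gcongr
    · have h5 := hΛ h4
      have h6 : (Λ : ℝ) * (c₀ * (1 + τ)) ≤ D * (N * log N) +
          2 * N * ((d : ℝ) - 1) * (2 * log N + 1) * (L₀ * R * (1 + τ)) := by
        calc (Λ : ℝ) * (c₀ * (1 + τ)) ≤ _ := mul_le_mul_of_nonneg_left hγ (Nat.cast_nonneg _)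
          _ ≤ _ := hcore
          _ ≤ _ := by
            have h7 := log_fact_le N
            have h8 := natLog_le hd hN1
            have h9 : (Module.finrank ℚ K : ℝ) ≤ D := by exact_mod_cast hfin
            have h10 : (0 : ℝ) ≤ log (N.factorial : ℝ) :=
              log_nonneg (by exact_mod_cast N.factorial_pos)
            have hd0 : (0 : ℝ) ≤ (d : ℝ) - 1 := by linarith
            have h11 : 0 ≤ ∑ p ∈ P, pm p * log (S p) := Finset.sum_nonneg fun p _ =>
              mul_nonneg (zero_le_one.trans (one_le_pm p)) (log_nonneg (hS1 p))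
            refine add_le_add (mul_le_mul h9 h7 h10 (Nat.cast_nonneg _)) ?_
            refine mul_le_mul ?_ hL h11 (by positivity)
            refine mul_le_mul_of_nonneg_left (by linarith) (by positivity)
      have h7 : (N : ℝ) * √N * (c₀ * (1 + τ)) ≤ 8 * (D * (N * log N) +
          2 * N * ((d : ℝ) - 1) * (2 * log N + 1) * (L₀ * R * (1 + τ))) := by
        have : 0 ≤ c₀ * (1 + τ) := by positivity
        nlinarith
      have h8 : 8 * (D * (N * log N) +
          2 * N * ((d : ℝ) - 1) * (2 * log N + 1) * (L₀ * R * (1 + τ))) ≤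
          N * (c₀ * (1 + τ)) * ((8 / c₀ * (D + 4 * ((d : ℝ) - 1) * L₀ + 1)) * R * (1 + log N)) := by
        have e1 : N * (c₀ * (1 + τ)) * ((8 / c₀ * (D + 4 * ((d : ℝ) - 1) * L₀ + 1)) * R *
            (1 + log N)) = 8 * N * ((1 + τ) * ((D + 4 * ((d : ℝ) - 1) * L₀ + 1) * R *
            (1 + log N))) := by
          field_simp
        rw [e1]
        have e2 : 8 * (D * (N * log N) +
          2 * N * ((d : ℝ) - 1) * (2 * log N + 1) * (L₀ * R * (1 + τ))) = 8 * N * (D * log N +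
          2 * ((d : ℝ) - 1) * (2 * log N + 1) * (L₀ * R * (1 + τ))) := by ring
        rw [e2]
        refine mul_le_mul_of_nonneg_left ?_ (by positivity)
        have e3 : D * log (N : ℝ) ≤ (1 + τ) * (D * R * (1 + log N)) := by
          calc D * log (N : ℝ) ≤ 1 * (D * 1 * (1 + log N)) := by
                have : (0 : ℝ) ≤ D := Nat.cast_nonneg _
                nlinarith
            _ ≤ _ := by gcongr; linarith
        have e4 : 2 * ((d : ℝ) - 1) * (2 * log N + 1) * (L₀ * R * (1 + τ)) ≤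
            (1 + τ) * (4 * ((d : ℝ) - 1) * L₀ * R * (1 + log N)) := by
          have : 2 * ((d : ℝ) - 1) * (2 * log N + 1) * (L₀ * R * (1 + τ)) =
            (((d : ℝ) - 1) * L₀ * R * (1 + τ)) * (4 * log N + 2) := by ring
          rw [this]
          have h9 : (1 + τ) * (4 * ((d : ℝ) - 1) * L₀ * R * (1 + log N)) =
            (((d : ℝ) - 1) * L₀ * R * (1 + τ)) * (4 * log N + 4) := by ring
          rw [h9]
          refine mul_le_mul_of_nonneg_left (by linarith) ?_
          have : (0 : ℝ) ≤ (d : ℝ) - 1 := by linarith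
          positivity
        have e5 : 0 ≤ (1 + τ) * (1 * R * (1 + log (N : ℝ))) := by positivity
        nlinarith
      have h9 : √(N : ℝ) ≤ (8 / c₀ * (D + 4 * ((d : ℝ) - 1) * L₀ + 1)) * R * (1 + log N) := by
        have h10 : (0 : ℝ) < N * (c₀ * (1 + τ)) := by positivity
        refine le_of_mul_le_mul_left ?_ h10
        calc (N : ℝ) * (c₀ * (1 + τ)) * √(N : ℝ) = (N : ℝ) * √N * (c₀ * (1 + τ)) := by ring
          _ ≤ _ := h7.trans h8
      refine h9.trans ?_
      have h10 : (8 / c₀ * (D + 4 * ((d : ℝ) - 1) * L₀ + 1)) ≤ C₁ := le_max_right _ _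
      gcongr
  have hfinal := hsolve N R hR hN1 hsqrt
  calc (Fintype.card ι : ℝ) ≤ M * N := by exact_mod_cast hk
    _ ≤ M * (C' * (R * log (1 + R)) ^ 2) := by gcongr
    _ ≤ (M + 1) * (C' * (R * log (1 + R)) ^ 2) := by
        have : (0 : ℝ) ≤ C' * (R * log (1 + R)) ^ 2 := by positivity
        nlinarith
    _ = (M + 1) * C' * (R * log (1 + R)) ^ 2 := by ring

end Pool.Agent.TH873.HI
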