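import Pool.Agent.TH873.HI.B
import Pool.Agent.H951R3.PH.Main

/-!
# Periodic points of generalized Henon maps whose cycles are small outside a finite set of places
-/

set_option autoImplicit false

namespace Pool.Agent.TH873.HI

open Real NumberField Polynomial Pool.Agent.H951R3 Pool.Agent.H951R3.PH

universe u

/-- the iterates of a point in terms of the orbit -/
theorem orb_iter {K : Type u} [Field K] (F : K[X]) (δ : K) {x : ℤ → K} (hx : Orb F δ x)
    {P : K × K} (h0 : x 0 = P.1) (h1 : x 1 = P.2) (k : ℕ) :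
    (hen F δ)^[k] P = (x k, x (k + 1)) := by
  induction k with
  | zero =>
    rw [Function.iterate_zero, id_eq]
    refine Prod.ext ?_ ?_
    · exact h0.symm
    · simpa using h1.symm
  | succ k ih =>
    rw [Function.iterate_succ_apply', ih]
    unfold hen
    refine Prod.ext ?_ ?_
    · simp
    · have h2 := hx (k + 1)
      rw [add_sub_cancel_right, smul_eq_mul, coe_aeval_eq_eval] at h2
      have h3 : ((k + 1 : ℕ) : ℤ) + 1 = (k : ℤ) + 1 + 1 := by push_cast; ring
      simp only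
      rw [h3, ← h2]
      ring

theorem orb_nat {K : Type u} [Field K] (F : K[X]) (δ : K) {x : ℤ → K} (hx : Orb F δ x)
    {P : K × K} (h0 : x 0 = P.1) (h1 : x 1 = P.2) (hper : ∃ m : ℕ, 0 < m ∧ ∀ n, x (n + m) = x n)
    (n : ℤ) : ∃ k : ℕ, x n = ((hen F δ)^[k] P).1 := by
  obtain ⟨m, hm, hx'⟩ := hper
  have hP : Function.Periodic x (m : ℤ) := hx'
  have hm' : (0 : ℤ) < m := by exact_mod_cast hm
  refine ⟨(n % m).toNat, ?_⟩
  rw [orb_iter F δ hx h0 h1]
  have h3 : 0 ≤ n % (m : ℤ) := Int.emod_nonneg _ hm'.ne'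
  have h5 : ((n % (m : ℤ)).toNat : ℤ) = n % (m : ℤ) := Int.toNat_of_nonneg h3
  change x n = x (((n % (m : ℤ)).toNat : ℕ) : ℤ)
  rw [h5]
  have h2 := hP.int_mul (n / m) (n % m)
  rw [← h2]
  congr 1
  have := Int.emod_add_mul_ediv n m
  push_cast
  linarith

theorem al_le_one {K : Type u} [Field K] (v : AbsoluteValue K ℝ) {d : ℕ} (hd : 2 ≤ d) {G : K[X]}
    (_hG : G.natDegree = d) {y : K} (h : v (G.coeff d) * v y ^ (d - 1) ≤ 1) :
    v y * al v d G ≤ 1 := by
  have h1 := al_pow v hd G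
  have h2 : (v y * al v d G) ^ (d - 1) ≤ 1 := by
    rw [mul_pow, h1, mul_comm]
    exact h
  have h3 : 0 ≤ v y * al v d G := mul_nonneg (v.nonneg _) (Real.rpow_nonneg (v.nonneg _) _)
  exact (pow_le_one_iff_of_nonneg h3 (by omega)).1 h2

/-- bound for the total loss -/
theorem loss_sum' {K : Type u} [Field K] [NumberField K] {d D : ℕ} (_hd : 2 ≤ d)
    (hfin : Module.finrank ℚ K ≤ D) (G : K[X]) (δ : K) (T : Finset (FinitePlace K)) :
    ∑ p ∈ (Finset.univ : Finset (InfinitePlace K)).disjSum T,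
      pm p * log (pA p ^ (d + 1) * max 1 (pv p δ) * Tv (pv p) d G) ≤
      (d + 1) * (D * log 2) + Height.logHeight₁ δ + D * log d +
        (∑ v : InfinitePlace K, v.mult * log (Tv v.val d G) + ∑ v ∈ T, log (Tv v.val d G)) := by
  classical
  set P := (Finset.univ : Finset (InfinitePlace K)).disjSum T with hP
  have hfin' : (Module.finrank ℚ K : ℝ) ≤ D := by exact_mod_cast hfin
  have hlog2 : 0 ≤ log 2 := log_nonneg (by norm_num)
  have hlogd : 0 ≤ log (d : ℝ) := log_nonneg (by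
    have : (2 : ℝ) ≤ d := by exact_mod_cast _hd
    linarith)
  have h0 : ∀ p : Pl K, log (pA p ^ (d + 1) * max 1 (pv p δ) * Tv (pv p) d G) =
      (d + 1) * log (pA p) + log (max 1 (pv p δ)) + log (Tv (pv p) d G) := by
    intro p
    have h1 : (0 : ℝ) < pA p := lt_of_lt_of_le one_pos (one_le_pA p)
    have h2 : (0 : ℝ) < max 1 (pv p δ) := lt_of_lt_of_le one_pos (le_max_left _ _)
    have h3 : (0 : ℝ) < Tv (pv p) d G := lt_of_lt_of_le one_pos (one_le_Tv _ _ _)
    rw [log_mul (by positivity) h3.ne', log_mul (by positivity) h2.ne', log_pow]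
    push_cast
    ring
  have h1 : ∑ p ∈ P, pm p * log (pA p ^ (d + 1) * max 1 (pv p δ) * Tv (pv p) d G) =
      (d + 1) * ∑ p ∈ P, pm p * log (pA p) + ∑ p ∈ P, pm p * log (max 1 (pv p δ)) +
        ∑ p ∈ P, pm p * log (Tv (pv p) d G) := by
    rw [Finset.mul_sum, ← Finset.sum_add_distrib, ← Finset.sum_add_distrib]
    refine Finset.sum_congr rfl fun p _ => ?_
    rw [h0]
    ring
  have h2 : ∑ p ∈ P, pm p * log (pA p) ≤ D * log 2 :=
    (sum_pA P).trans (by gcongr)
  have h3 : ∑ p ∈ P, pm p * log (max 1 (pv p δ)) ≤ Height.logHeight₁ δ := sum_height δ P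
  have h4 : ∑ p ∈ P, pm p * log (Tv (pv p) d G) =
      ∑ v : InfinitePlace K, v.mult * log (Tv v.val d G) + ∑ v ∈ T, log (Tv v.val d G) := by
    rw [hP, Finset.sum_disjSum]
    congr 1
    refine Finset.sum_congr rfl fun v _ => ?_
    change 1 * log (Tv v.val d G) = _
    rw [one_mul]
  rw [h1, h4]
  have h9 : ((d : ℝ) + 1) * ∑ p ∈ P, pm p * log (pA p) ≤ (d + 1) * (D * log 2) := by gcongr
  have h10 : 0 ≤ (D : ℝ) * log d := by positivity
  linarith

theorem main_bound' (d : ℕ) (hd : 2 ≤ d) (D : ℕ) (H : ℝ) : ∃ C : ℝ, 0 < C ∧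
    ∀ (K : Type u) [Field K] [NumberField K], Module.finrank ℚ K ≤ D →
    ∀ (F : K[X]) (δ : K), F.natDegree = d → δ ≠ 0 →
    ∀ (T : Finset (FinitePlace K)) (R : ℝ), 1 ≤ R → ∀ q : InfinitePlace K ⊕ T,
      Height.logHeight₁ δ ≤ H + Sum.elim (fun v : InfinitePlace K => v.mult * siz v.val d F δ)
        (fun v : T => siz v.1.val d F δ) q / 8 →
      ((T.card : ℝ) ≤ R ∨
        ∑ v : InfinitePlace K, v.mult * siz v.val d F δ + ∑ v ∈ T, siz v.val d F δ ≤
          R * (1 + Sum.elim (fun v : InfinitePlace K => v.mult * siz v.val d F δ)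
            (fun v : T => siz v.1.val d F δ) q)) →
    ∀ Y : Finset (K × K), (∀ P ∈ Y, ∃ m : ℕ, 0 < m ∧ (hen F δ)^[m] P = P) →
      (∀ v : FinitePlace K, v ∉ T → ∀ P ∈ Y, ∀ Q ∈ Y, ∀ k : ℕ,
        v (F.coeff d) * v (((hen F δ)^[k] P).1 - Q.1) ^ (d - 1) ≤ 1) →
      (Y.card : ℝ) ≤ C * (R * log (1 + R)) ^ 2 := by
  classical
  set H' : ℝ := max H 0 with hH'
  have hH0 : 0 ≤ H' := le_max_right _ _
  have hd2 : (2 : ℝ) ≤ d := by exact_mod_cast hd
  have hd1 : (1 : ℝ) ≤ (d : ℝ) - 1 := by linarith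
  have hlogd : 0 ≤ log (d : ℝ) := log_nonneg (by linarith)
  have hlog2 : 0 ≤ log (2 : ℝ) := log_nonneg (by norm_num)
  set C₁ : ℝ := 2 * (2 + (6 * d + 9)) + 2 * D * log d with hC₁
  have hC₁0 : 0 ≤ C₁ := by positivity
  set C₂ : ℝ := 4 * (4 * H' + C₁ + 1) + 8 * (d + 4) + 8 * H' + 2 with hC₂
  have hC₂0 : 0 ≤ C₂ := by positivity
  set L₀ : ℝ := (d + 1) * (D * log 2) + H' + 1 + D * log d + D + 2 with hL₀
  have hL₀0 : 0 ≤ L₀ := by positivity
  set C₃ : ℝ := H' + C₂ + C₂ + D * log d with hC₃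
  have hC₃0 : 0 ≤ C₃ := by positivity
  obtain ⟨M', hM'⟩ := PB.fin_net.{u} (2 ^ D) (C₃ + (H' + C₂) + 1)
  have hca : (0 : ℝ) < 1 / (8 * ((d : ℝ) - 1)) := by positivity
  have hcb : (0 : ℝ) < 1 / (1 + C₂) := by positivity
  obtain ⟨Ca, hCa, ha⟩ := step'.{u} hd D hca hL₀0 (d ^ 6)
  obtain ⟨Cb, hCb, hb⟩ := step'.{u} hd D hcb hL₀0 (M' * M')
  refine ⟨max Ca Cb, lt_of_lt_of_le hCa (le_max_left _ _), ?_⟩
  intro K _ _ hfin F δ hF hδ T R hR q hq hR' Y hY hYT
  have hRR0 : 0 ≤ (R * log (1 + R)) ^ 2 := by positivity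
  rcases Y.eq_empty_or_nonempty with hYe | ⟨P₀, hP₀⟩
  · rw [hYe, Finset.card_empty, Nat.cast_zero]
    exact mul_nonneg (hCa.le.trans (le_max_left _ _)) hRR0
  set G := cen d F δ with hG_def
  have hG : G.natDegree = d := cen_natDegree hd hF δ
  have hG1 : G.coeff (d - 1) = 0 := cen_coeff hd hF δ
  have hRR : 0 ≤ (R * log (1 + R)) ^ 2 := by positivity
  -- orbits
  have horb : ∀ P : Y, ∃ x : ℤ → K, Orb F δ x ∧ x 0 = P.1.1 ∧ x 1 = P.1.2 ∧
      ∃ m : ℕ, 0 < m ∧ ∀ n, x (n + m) = x n := by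
    intro P
    obtain ⟨m, hm, hP⟩ := hY P.1 P.2
    obtain ⟨x, h1, h2, h3, h4⟩ := orbit_of_periodic F δ P.1 hm hP
    exact ⟨x, h1, h2, h3, m, hm, h4⟩
  choose x hx hx0 hx1 hxper using horb
  let X : Y → ℤ → K := fun i n => x i n - ctr d F
  have hX : ∀ i, Orb G δ (X i) := fun i => cen_orb (hx i)
  have hXper : ∀ i, ∃ m : ℕ, 0 < m ∧ ∀ n, X i (n + m) = X i n := by
    intro i
    obtain ⟨m, hm, h⟩ := hxper i
    exact ⟨m, hm, fun n => by simp only [X, h]⟩
  have hinj : ∀ i j, X i 0 = X j 0 → X i 1 = X j 1 → i = j := by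
    intro i j h0 h1
    simp only [X, hx0, hx1, sub_left_inj] at h0 h1
    exact Subtype.ext (Prod.ext h0 h1)
  -- sizes
  let S₀ : Pl K → ℝ := fun p => pA p ^ (d + 1) * max 1 (pv p δ) * Tv (pv p) d G
  have hS₀1 : ∀ p, 1 ≤ S₀ p := by
    intro p
    have h1 : 1 ≤ pA p ^ (d + 1) := one_le_pow₀ (one_le_pA p)
    have h2 : (1 : ℝ) ≤ max 1 (pv p δ) := le_max_left _ _
    have h3 : 1 ≤ Tv (pv p) d G := one_le_Tv _ _ _
    calc (1 : ℝ) = 1 * 1 * 1 := by norm_num
      _ ≤ S₀ p := by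
        simp only [S₀]
        gcongr
  have hS₀ : ∀ p i n, pv p (X i n) * al (pv p) d G ≤ S₀ p := by
    intro p i n
    exact escape (pv p) (one_le_pA p) (pv_add p) hd hG hG1 (hX i) (hXper i) n
  let i₀ : Y := ⟨P₀, hP₀⟩
  -- the places outside `T` and the infinite places
  let Out : Pl K → Prop := fun p => ∃ v : FinitePlace K, p = Sum.inr v ∧ v ∉ T
  let S : Pl K → ℝ := fun p => if Out p then 1 else S₀ p
  let c : Pl K → K := fun p => if Out p then X i₀ 0 else 0
  have hSout : ∀ v : FinitePlace K, v ∉ T → S (Sum.inr v) = 1 := by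
    intro v hv
    simp only [S]
    rw [if_pos ⟨v, rfl, hv⟩]
  have hcout : ∀ v : FinitePlace K, v ∉ T → c (Sum.inr v) = X i₀ 0 := by
    intro v hv
    simp only [c]
    rw [if_pos ⟨v, rfl, hv⟩]
  have hSin : ∀ p, ¬ Out p → S p = S₀ p := by
    intro p hp
    simp only [S]
    rw [if_neg hp]
  have hcin : ∀ p, ¬ Out p → c p = 0 := by
    intro p hp
    simp only [c]
    rw [if_neg hp]
  have hnotinf : ∀ v : InfinitePlace K, ¬ Out (Sum.inl v) := by
    rintro v ⟨w, hw, -⟩
    cases hw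
  have hnotT : ∀ v : FinitePlace K, v ∈ T → ¬ Out (Sum.inr v) := by
    rintro v hv ⟨w, hw, hw'⟩
    rw [Sum.inr.injEq] at hw
    exact hw' (hw ▸ hv)
  have hS1 : ∀ p, 1 ≤ S p := by
    intro p
    by_cases hp : Out p
    · simp only [S]
      rw [if_pos hp]
    · rw [hSin p hp]
      exact hS₀1 p
  have hS : ∀ p i n, pv p (X i n - c p) * al (pv p) d G ≤ S p := by
    intro p i n
    by_cases hp : Out p
    · obtain ⟨v, rfl, hv⟩ := hp
      rw [hSout v hv, hcout v hv]
      obtain ⟨k, hk⟩ := orb_nat F δ (hx i) (hx0 i) (hx1 i) (hxper i) n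
      have h1 : X i n - X i₀ 0 = ((hen F δ)^[k] i.1).1 - i₀.1.1 := by
        change x i n - ctr d F - (x i₀ 0 - ctr d F) = _
        rw [hk, hx0 i₀]
        ring
      rw [h1]
      have h2 := hYT v hv i.1 i.2 i₀.1 i₀.2 k
      exact al_le_one v.val hd hG (by rw [cen_lead hd hF]; exact h2)
    · rw [hSin p hp, hcin p hp, sub_zero]
      exact hS₀ p i n
  set P := (Finset.univ : Finset (InfinitePlace K)).disjSum T with hP
  have hSP : ∀ p, p ∉ P → S p = 1 := by
    intro p hp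
    rcases p with v | v
    · exact absurd (Finset.inl_mem_disjSum.2 (Finset.mem_univ v)) hp
    · exact hSout v fun h => hp (Finset.inr_mem_disjSum.2 h)
  -- the maximal size
  let s : InfinitePlace K ⊕ T → ℝ := Sum.elim
    (fun v : InfinitePlace K => (v.mult : ℝ) * siz v.val d F δ) (fun v : T => siz v.1.val d F δ)
  obtain ⟨q₁, hq₁⟩ : ∃ q₁, ∀ q, s q ≤ s q₁ := by
    have : Nonempty (InfinitePlace K ⊕ T) := ⟨q⟩
    exact Finite.exists_max s
  set τ := s q₁ with hτ
  have hs0 : ∀ q, 0 ≤ s q := by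
    intro q
    rcases q with v | v
    · exact mul_nonneg (Nat.cast_nonneg _) (log_nonneg (one_le_Tv _ _ _))
    · exact log_nonneg (one_le_Tv _ _ _)
  have hτ0 : 0 ≤ τ := hs0 q₁
  have hh : Height.logHeight₁ δ ≤ H' + τ / 8 := by
    have h1 : s q ≤ τ := hq₁ q
    have h2 : H ≤ H' := le_max_left _ _
    have h3 : Height.logHeight₁ δ ≤ H + s q / 8 := hq
    linarith
  have hsum : ∑ v : InfinitePlace K, v.mult * log (Tv v.val d G) + ∑ v ∈ T, log (Tv v.val d G) ≤
      (D + R) * τ + R := by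
    rcases hR' with hc | hc
    · have h1 : ∑ v : InfinitePlace K, v.mult * log (Tv v.val d G) ≤ D * τ := by
        calc _ ≤ ∑ _v : InfinitePlace K, τ := Finset.sum_le_sum fun v _ => hq₁ (Sum.inl v)
          _ = Fintype.card (InfinitePlace K) * τ := by
            rw [Finset.sum_const, Finset.card_univ, nsmul_eq_mul]
          _ ≤ D * τ := by
            have := card_inf_le hfin
            gcongr
      have h2 : ∑ v ∈ T, log (Tv v.val d G) ≤ R * τ := by
        calc _ ≤ ∑ _v ∈ T, τ := Finset.sum_le_sum fun v hv => hq₁ (Sum.inr ⟨v, hv⟩)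
          _ = T.card * τ := by rw [Finset.sum_const, nsmul_eq_mul]
          _ ≤ R * τ := by gcongr
      nlinarith
    · have h1 : s q ≤ τ := hq₁ q
      have h2 : ∑ v : InfinitePlace K, v.mult * log (Tv v.val d G) +
          ∑ v ∈ T, log (Tv v.val d G) ≤ R * (1 + s q) := hc
      have h3 : R * (1 + s q) ≤ R * (1 + τ) := by gcongr
      have h4 : 0 ≤ D * τ := by positivity
      nlinarith
  have hL : ∑ p ∈ P, pm p * log (S p) ≤ L₀ * R * (1 + τ) := by
    have hPS : ∑ p ∈ P, pm p * log (S p) = ∑ p ∈ P, pm p * log (S₀ p) := by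
      refine Finset.sum_congr rfl fun p hp => ?_
      rw [hSin p ?_]
      rcases p with v | v
      · exact hnotinf v
      · exact hnotT v (Finset.inr_mem_disjSum.1 hp)
    rw [hPS]
    refine (loss_sum' hd hfin G δ T).trans ?_
    have h1 : (d + 1) * (D * log 2) + Height.logHeight₁ δ + D * log d +
        (∑ v : InfinitePlace K, v.mult * log (Tv v.val d G) + ∑ v ∈ T, log (Tv v.val d G)) ≤
        (d + 1) * (D * log 2) + (H' + τ / 8) + D * log d + ((D + R) * τ + R) := by linarith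
    refine h1.trans ?_
    have e1 : ((d : ℝ) + 1) * (D * log 2) ≤ ((d + 1) * (D * log 2)) * R * (1 + τ) := by
      have : (1 : ℝ) ≤ R * (1 + τ) := by nlinarith
      have h0 : 0 ≤ ((d : ℝ) + 1) * (D * log 2) := by positivity
      nlinarith
    have e2 : H' ≤ H' * R * (1 + τ) := by
      have : (1 : ℝ) ≤ R * (1 + τ) := by nlinarith
      nlinarith
    have e3 : D * log (d : ℝ) ≤ (D * log d) * R * (1 + τ) := by
      have : (1 : ℝ) ≤ R * (1 + τ) := by nlinarith
      have h0 : 0 ≤ D * log (d : ℝ) := by positivity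
      nlinarith
    have e4 : τ / 8 ≤ 1 * R * (1 + τ) := by nlinarith
    have e5 : (D : ℝ) * τ ≤ D * R * (1 + τ) := by
      have h0 : (0 : ℝ) ≤ D := Nat.cast_nonneg _
      have h1 : τ ≤ R * (1 + τ) := by nlinarith
      nlinarith
    have e6 : R * τ + R ≤ 2 * R * (1 + τ) := by nlinarith
    rw [hL₀]
    linarith
  rw [← Fintype.card_coe]
  rcases le_or_gt C₂ τ with hbig | hsmall
  · -- a place of large size
    let q₀ : Pl K := Sum.map id (fun v : T => v.1) q₁
    have hq₀ : pm q₀ * log (Tv (pv q₀) d G) = τ := by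
      rcases q₁ with v | v
      · rfl
      · change 1 * log (Tv v.1.val d G) = siz v.1.val d F δ
        rw [one_mul]
        rfl
    have hh0 : 0 ≤ Height.logHeight₁ δ := Height.zero_le_logHeight₁ δ
    obtain ⟨ρ, cell, hρ, hcell, hγ⟩ := big_place hd hfin hG hG1 q₀ hq₀ rfl
      (by rw [hC₂] at hbig; nlinarith) X hX (fun i n => hS₀ q₀ i n)
    have h1 := ha K hfin hG hδ X hX hinj S hS1 P hSP c hS q₀ ρ hρ cell hcell τ R hτ0 hR ?_ hL
    · refine h1.trans ?_
      have := le_max_left Ca Cb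
      gcongr
    · refine le_trans ?_ hγ
      rw [div_mul_eq_mul_div, one_mul, div_le_div_iff₀ (by positivity) (by linarith)]
      have h2 : (1 + τ) ≤ 8 * (τ - 4 * Height.logHeight₁ δ - 2 * (2 + (6 * d + 9)) -
          2 * D * log d) := by
        rw [hC₂, hC₁] at hbig
        nlinarith
      nlinarith
  · -- an auxiliary place above 2
    obtain ⟨v, f, hf1, hf2, hv⟩ := H951R2.MS.exists_place_above hfin Nat.prime_two
    have hv' : Ideal.absNorm v.maximalIdeal.asIdeal ≤ 2 ^ D := by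
      rw [hv]
      exact Nat.pow_le_pow_right (by norm_num) hf2
    have hal := al_pos v.val hd hG
    have hSpos : 0 < S (Sum.inr v) := lt_of_lt_of_le one_pos (hS1 _)
    obtain ⟨cell, hcell⟩ := hM' K v hv' (S (Sum.inr v) / al v.val d G) (by positivity)
    have hcb' : ∀ i n, v (X i n - c (Sum.inr v)) ≤ S (Sum.inr v) / al v.val d G := by
      intro i n
      rw [le_div_iff₀ hal]
      exact hS (Sum.inr v) i n
    have hlogS : log (S (Sum.inr v)) ≤ C₃ := by
      by_cases hvT : v ∈ T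
      · have h1 : S (Sum.inr v) = max 1 (v.val δ) * Tv v.val d G := by
          rw [hSin _ (hnotT v hvT)]
          change (1 : ℝ) ^ (d + 1) * max 1 (v.val δ) * Tv v.val d G = _
          rw [one_pow, one_mul]
        rw [h1, log_mul (lt_of_lt_of_le one_pos (le_max_left _ _)).ne'
          (lt_of_lt_of_le one_pos (one_le_Tv _ _ _)).ne']
        have h2 : log (max 1 (v.val δ)) ≤ H' + C₂ := by
          have h3 := single_height δ (Sum.inr v : Pl K)
          change 1 * log (max 1 (v.val δ)) ≤ _ at h3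
          linarith
        have h3 : log (Tv v.val d G) ≤ C₂ + D * log d := by
          have h4 : log (Tv v.val d G) ≤ τ := hq₁ (Sum.inr ⟨v, hvT⟩)
          have : 0 ≤ D * log (d : ℝ) := by positivity
          linarith
        rw [hC₃]
        linarith
      · rw [hSout v hvT, log_one]
        exact hC₃0
    set A' : ℝ := C₃ + (H' + C₂) + 1 with hA'
    have h1 := hb K hfin hG hδ X hX hinj S hS1 P hSP c hS (Sum.inr v) (exp (-A') * S (Sum.inr v))
      (by positivity) (fun i => finProdFinEquiv (cell (X i 0 - c (Sum.inr v)),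
        cell (X i 1 - c (Sum.inr v)))) ?_ τ R hτ0 hR ?_ hL
    · refine h1.trans ?_
      have := le_max_right Ca Cb
      gcongr
    · intro i j hij n hn
      have h2 := finProdFinEquiv.injective hij
      rw [Prod.mk.injEq] at h2
      have h3 : cell (X i n - c (Sum.inr v)) = cell (X j n - c (Sum.inr v)) := by
        rcases hn with rfl | rfl
        · exact h2.1
        · exact h2.2
      have h4 := hcell _ _ (hcb' i n) (hcb' j n) h3
      rw [sub_sub_sub_cancel_right] at h4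
      change v (X i n - X j n) * al v.val d G ≤ _
      calc v (X i n - X j n) * al v.val d G ≤
          exp (-A') * (S (Sum.inr v) / al v.val d G) * al v.val d G := by gcongr
        _ = exp (-A') * S (Sum.inr v) := by field_simp
    · have h2 : pm (Sum.inr v : Pl K) = 1 := rfl
      rw [h2, one_mul, log_mul (exp_pos _).ne' hSpos.ne', log_exp]
      have h3 : log (max 1 (pv (Sum.inr v : Pl K) δ)⁻¹) ≤ H' + C₂ := by
        have h4 := single_height δ⁻¹ (Sum.inr v : Pl K)
        rw [Height.logHeight₁_inv, map_inv₀, h2, one_mul] at h4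
        linarith
      have h4 : log (max 1 (pv (Sum.inr v : Pl K) δ)⁻¹) / ((d : ℝ) - 1) ≤ H' + C₂ := by
        have h5 : 0 ≤ log (max 1 (pv (Sum.inr v : Pl K) δ)⁻¹) := log_nonneg (le_max_left _ _)
        exact (div_le_self h5 hd1).trans h3
      have h5 : 1 / (1 + C₂) * (1 + τ) ≤ 1 := by
        rw [div_mul_eq_mul_div, one_mul, div_le_one (by positivity)]
        linarith
      linarith

end Pool.Agent.TH873.HI
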